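import Pool.Agent.U737.CF.Final

/-!
# Weak evasiveness for monotone functions on flags of consecutive dimensions (MP_d4e2f9_lc)

Let `V` be a vector space of dimension `m` over the field with `q` elements and `i < m`. The variables
are the flags `A ⊂ B` of subspaces of dimensions `i` and `i + 1`, and the group is `GL(V)`. Every
non-constant monotone invariant Boolean function of these variables has decision tree complexity at
least `q ^ ((i + 1) (m - i) - 1)`, and this is at least `(1 - 1/q) (1 - 1/q - 1/q²) n ≥ n / 8`, where
`n` is the number of the variables.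

More generally let `T ⊆ R` be subspaces of `V` and let the variables be the flags `A ⊂ B` in general
position to them, `B ∩ T = 0`, `A + R = V`; the group is the stabilizer of `T` and `R`. If for instance
`T = 0` and `R` is a hyperplane, then these are the flags of flats of dimensions `i - 1` and `i` of an
affine space (points on lines, lines in planes, and so on) and the group is, up to scalars, the
affine group. The variables may also be indexed by any finite set with an action of the group and an
equivariant map to these flags.

The starting results of the problem give for these functions only what follows from the subspaces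
`A` or `B` of one dimension (`SubspaceProperties`): the bounds `q ^ (i (m - i))` and
`q ^ ((i + 1) (m - i - 1))`, while `n` is about `q ^ (i (m - i) + m - i - 1)`. For `m = 3` the flags are
the flags of a projective plane (`GeneralizedPolygons`).

Proof. Suppose that `f` is not constant and that `D(f) < q ^ ((i + 1) (m - i) - 1)`. Call a set of
flags null if `f` is zero on it. For a chain `K ⊂ H` of subspaces of codimensions `i + 1` and `i` the
group `U(K, H)` of the `g` which are the identity on `K`, on `H / K` and on `V / H` is a `p`-group and
transitive on the `q ^ ((i + 1) (m - i) - 1)` flags opposite to `(K, H)`: `B ∩ K = 0`, `A + H = V`. So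
(Rivest, Vuillemin; `Pool.Agent.R570.PS.rv'`) these flags may be added to every null set which is
invariant under `U(K, H)`. The theorem follows if we prove by induction on `dim (R / T)`:

(*) if `𝒜` is null and invariant under `U(K, H)` for all chains with `T ⊆ K ⊂ H ⊆ R`, then the union of
`𝒜` and of the set of all flags in general position to `T`, `R` is null.

For `T = K`, `R = H` this was just said. In the induction step let `T₁` be any space with `T ⊂ T₁ ⊆ R`,
`dim (T₁ / T) = 1`, and let `R₁` be any space with `T ⊆ R₁ ⊂ R`, `dim (R / R₁) = 1`; assume that `T` is not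
yet of codimension `i + 1` and that `R` is not yet of codimension `i`, so (*) is true for `(T₁, R)` and
for `(T, R₁)`. All flags are assumed to be in general position to `T`, `R`, and the union with `𝒜` is
understood.
(1) The set `{A ∩ T₁ ≠ 0}` is null, because it is contained in `{A + R₁ = V}`, if `T₁` is not in `R₁`.
(2) So `{A ∩ T₁ ≠ 0 or B ∩ T₁ = 0}` is null, by (*) for `(T₁, R)`.
(3) If `T₁ ⊆ R₁`, then this set contains `{A ∩ R ⊆ R₁, B ∩ R ⊄ R₁}`, because then `B ∩ R₁ = A ∩ R`. So by (*)
for `(T, R₁)` the set `{B ∩ R ⊄ R₁}` is null.
(4) If `T₁` is not in `R₁`, then this set contains `{B ∩ T₁ ≠ 0}`. By (*) for `(T₁, R)` all flags are null.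
If `T` has codimension `i + 1` or `R` has codimension `i`, then it suffices to use two different
spaces `R₁` or two different spaces `T₁`.
-/

set_option autoImplicit false

namespace Pool.Agent.Results.MP_d4e2f9_lc.ConsecutiveFlags

/-- `f` is computed by a decision tree of depth at most `d`, in the words of the frozen statement
of the problem: every predicate closed under the formation of decision trees holds for it. -/
def DepthLe {X : Type} [DecidableEq X] (d : ℕ) (f : (X → Bool) → Bool) : Prop :=
  ∀ P : ℕ → ((X → Bool) → Bool) → Prop,
    (∀ (m : ℕ) (g : (X → Bool) → Bool), (∀ x y, g x = g y) → P m g) →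
    (∀ (m : ℕ) (g : (X → Bool) → Bool) (i : X),
       P m (fun x => g (Function.update x i false)) →
       P m (fun x => g (Function.update x i true)) → P (m + 1) g) →
    P d f

variable {F V : Type} [Field F] [AddCommGroup V] [Module F V]

/-- The flags `A ≤ B` of subspaces of dimensions `i` and `i + 1` in general position to `T` and `R`,
that is, with `B ∩ T = 0` and `A + R = V`. -/
abbrev Flags (T R : Submodule F V) (i : ℕ) : Type :=
  {c : Submodule F V × Submodule F V // (Module.finrank F c.1 = i ∧ Module.finrank F c.2 = i + 1 ∧
    c.1 ≤ c.2) ∧ c.2 ⊓ T = ⊥ ∧ c.1 ⊔ R = ⊤}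

/-- The group of the linear automorphisms `g` of `V` with `g T = T` and `g R = R`. -/
def Stab (T R : Submodule F V) : Subgroup (V ≃ₗ[F] V) where
  carrier := {g | T.map (g : V →ₗ[F] V) = T ∧ R.map (g : V →ₗ[F] V) = R}
  mul_mem' := by
    rintro a b ⟨ha, ha'⟩ ⟨hb, hb'⟩
    have key : ∀ W : Submodule F V, W.map ((a * b : V ≃ₗ[F] V) : V →ₗ[F] V) =
        (W.map (b : V →ₗ[F] V)).map (a : V →ₗ[F] V) := fun W => by
      rw [← Submodule.map_comp]
      rfl
    exact ⟨by rw [key, hb, ha], by rw [key, hb', ha']⟩
  one_mem' := ⟨Submodule.map_id T, Submodule.map_id R⟩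
  inv_mem' := by
    rintro a ⟨ha, ha'⟩
    have key : ∀ W : Submodule F V, (W.map (a : V →ₗ[F] V)).map ((a⁻¹ : V ≃ₗ[F] V) : V →ₗ[F] V) =
        W := fun W => by
      rw [← Submodule.map_comp]
      have : ((a⁻¹ : V ≃ₗ[F] V) : V →ₗ[F] V).comp (a : V →ₗ[F] V) = LinearMap.id := by
        ext x
        show (a⁻¹ * a) x = x
        rw [inv_mul_cancel]
        rfl
      rw [this, Submodule.map_id]
    have h1 := key T
    have h2 := key R
    rw [ha] at h1
    rw [ha'] at h2
    exact ⟨h1, h2⟩

/-- **Weak evasiveness for functions on flags of consecutive dimensions.** Let `T ≤ R` be subspaces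
of a vector space `V` of finite dimension `m` over a finite field with `q` elements, let `X` be a
finite set with an action of the stabilizer of `T` and `R` and an equivariant map `π` to the flags
`A ≤ B` of dimensions `i`, `i + 1` with `B ∩ T = 0`, `A + R = V` (for instance, `X` is the set of all
these flags; `T = 0`, `R = V` gives all flags of dimensions `i`, `i + 1` and the group `GL(V)`). A
non-constant monotone invariant function `f` of Boolean variables indexed by `X` needs decision trees
of depth at least `q ^ ((i + 1) (m - i) - 1)`, and this is at least `(1 - 1/q) (1 - 1/q - 1/q²)` times the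
number of all these flags. -/
theorem result [Finite F] [FiniteDimensional F V] (T R : Submodule F V) (hTR : T ≤ R) (i : ℕ)
    {X : Type} [Finite X] [DecidableEq X] [MulAction (Stab T R) X] (π : X → Flags T R i)
    (hπ : ∀ (g : Stab T R) (x : X),
      (π (g • x)).1 = ((π x).1.1.map (g.1 : V →ₗ[F] V), (π x).1.2.map (g.1 : V →ₗ[F] V)))
    (f : (X → Bool) → Bool) (hmono : Monotone f) (hne : ∃ x y, f x ≠ f y)
    (hinv : ∀ (g : Stab T R) (x : X → Bool), f (fun v => x (g • v)) = f x)
    (d : ℕ) (hd : DepthLe d f) :
    Nat.card F ^ ((i + 1) * (Module.finrank F V - i) - 1) ≤ d ∧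
      (1 - 1 / (Nat.card F : ℝ)) * (1 - 1 / (Nat.card F : ℝ) - 1 / (Nat.card F : ℝ) ^ 2) *
        Nat.card (Flags T R i) ≤ d := by
  let _ : MulAction (Pool.Agent.U737.CF.Stab T R) X := (inferInstance : MulAction (Stab T R) X)
  obtain ⟨hi, h⟩ := Pool.Agent.U737.CF.final hTR i (fun x => (π x).1) (fun x => (π x).2.1)
    (fun x => (π x).2.2) hπ f hmono hne hinv d hd
  constructor
  · have h1 : (i + 1) * (Module.finrank F V - i) - 1 =
        i * (Module.finrank F V - i) + (Module.finrank F V - i - 1) := by
      rw [Nat.add_mul, one_mul]
      omega
    rw [h1]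
    exact h
  · refine le_trans ?_ (Pool.Agent.U737.CF.ratio hi h)
    have hV : Finite V := Module.finite_of_finite F
    have hSub : Finite (Submodule F V) :=
      Finite.of_injective (fun W : Submodule F V => (W : Set V)) SetLike.coe_injective
    have hq : (2 : ℝ) ≤ Nat.card F := by
      have := Finite.one_lt_card (α := F)
      exact_mod_cast this
    have e1 : 1 / (Nat.card F : ℝ) ≤ 1 / 2 := one_div_le_one_div_of_le (by norm_num) hq
    have e2 : 1 / (Nat.card F : ℝ) ^ 2 ≤ 1 / 4 :=
      one_div_le_one_div_of_le (by norm_num) (by nlinarith)
    have e3 : 0 ≤ (1 - 1 / (Nat.card F : ℝ)) *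
        (1 - 1 / (Nat.card F : ℝ) - 1 / (Nat.card F : ℝ) ^ 2) :=
      mul_nonneg (by linarith) (by linarith)
    refine mul_le_mul_of_nonneg_left ?_ e3
    have h2 : Nat.card (Flags T R i) ≤
        Nat.card {c : Submodule F V × Submodule F V // Pool.Agent.U737.CF.IsFl i c} :=
      Nat.card_le_card_of_injective (fun c => ⟨c.1, c.2.1⟩) fun a b hab =>
        Subtype.ext (Subtype.mk.inj hab)
    exact_mod_cast h2

end Pool.Agent.Results.MP_d4e2f9_lc.ConsecutiveFlags
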