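import Pool.Agent.U737.GP.Points

/-!
# Weak evasiveness for monotone functions on generalized polygons (MP_d4e2f9_lc)

A generalized `n`-gon is a geometry of points and lines whose incidence graph is connected, of
diameter `n` and of girth `2 n` (projective planes for `n = 3`, generalized quadrangles for `n = 4`);
it is thick if every point is on at least three lines and every line has at least three points. Two
flags (incident pairs of a point and a line) are opposite if they are as far from each other as
possible.

Let `G` be a finite group of automorphisms of a finite thick generalized `n`-gon such that for every
flag `c` the stabilizer of `c` is transitive on the flags which are opposite to `c`, and their number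
is a power of a prime `p`. This holds for all groups of Lie type of rank two in their natural action:
`PGL_3(q)` (`n = 3`), `PSp_4(q)`, `PSU_4(q)`, `PSU_5(q)` (`n = 4`), `G_2(q)`, `^3D_4(q)` (`n = 6`) and
`^2F_4(q)` (`n = 8`), that is, for all finite Moufang polygons.

(1) Every non-constant monotone `G`-invariant Boolean function of variables indexed by the flags has
decision tree complexity at least the number of the flags opposite to a given flag, and this is at
least one third of the number of all flags.
(2) Every non-constant monotone `G`-invariant Boolean function of variables indexed by the points has
decision tree complexity at least the number of the points opposite to some point (or line, if `n` is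
odd), and this is at least one third of the number of all points. (For the lines take the dual
geometry.)
The variables may also be indexed by any finite set with an action of `G` and an equivariant map to
the flags, or to the points.

The starting results about families of this kind are about subspaces of a given dimension of a vector
space (`SubspaceProperties`), isotropic points (`PolarSpaces`) and maximal isotropic subspaces
(`DualPolarSpaces`). They contain the points and the lines for `n = 3`, `4`. New are the flags for all
`n` (for the flags of the projective plane over the field with `q` elements, for example,
`SubspaceProperties` gives only the bound `q ^ 2`, while there are about `q ^ 3` flags; here the bound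
is `q ^ 3`), and the points and lines for `n = 6`, `8`.

Proof. Let `(a, b)` be a frame, that is, a pair of incident elements. The flags have levels with
respect to the frame: opposite flags have level `0`, the others have the levels `1, …, n - 1` if they
are on the side of `b` (the nearest ones have the highest level), then comes the flag `{a, b}` itself,
and then the flags on the side of `a`, the nearest ones first; so the levels are the positions on the
closed galleries of `2 n` flags through `{a, b}` in cyclic order, beginning with the opposite flag.
If `b'` is another element incident with `a`, then all levels, except the level `0`, are smaller with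
respect to the frame `(b', a)`. A decision tree whose depth is smaller than the number of the opposite
flags does not see them, because a Sylow subgroup of the stabilizer is transitive on them
(Rivest, Vuillemin; `Pool.Agent.R570.PS.rv'`). So it follows by induction on `k` that the function is
`0` on the set of the flags of level less than `k` with respect to every frame, and finally on the
set of all flags. The points have similar levels.
-/

set_option autoImplicit false

namespace Pool.Agent.Results.MP_d4e2f9_lc.GeneralizedPolygons

open Pool.Agent.U737.GP (incGraph GeneralizedPolygon Opposite Thick Trans)

/-- `f` is computed by a decision tree of depth at most `d`, in the words of the frozen statement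
of the problem: every predicate closed under the formation of decision trees holds for it. -/
def DepthLe {X : Type} [DecidableEq X] (d : ℕ) (f : (X → Bool) → Bool) : Prop :=
  ∀ P : ℕ → ((X → Bool) → Bool) → Prop,
    (∀ (m : ℕ) (g : (X → Bool) → Bool), (∀ x y, g x = g y) → P m g) →
    (∀ (m : ℕ) (g : (X → Bool) → Bool) (i : X),
       P m (fun x => g (Function.update x i false)) →
       P m (fun x => g (Function.update x i true)) → P (m + 1) g) →
    P d f

/-- **Weak evasiveness for functions on generalized polygons.** Let `I` be the incidence relation of
a finite thick generalized `n`-gon with points `P` and lines `L`, and let the finite group `G` act on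
`P` and `L` such that `I` is preserved, with the property `Trans`: for every flag `c` the number of
the flags opposite to `c` is a power of the prime `p`, and the stabilizer of `c` is transitive on
them. Let `X` be a finite set with an action of `G`, and let `f` be a non-constant monotone
`G`-invariant function of Boolean variables indexed by `X`, computed by a decision tree of depth at
most `d`.
(1) If there is an equivariant map from `X` to the flags (for instance if `X` is the set of the
flags), then `d` is at least the number of the flags opposite to some flag, and at least one third of
the number of the flags.
(2) If there is an equivariant map from `X` to the points (for instance `X = P`), then `d` is at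
least the number of the points at distance `n` from `w`, for some point or line `w` for which this
number is not zero; and `d` is at least one third of the number of the points, if all points are on
the same number of lines. -/
theorem result {P L : Type} [Finite P] [Finite L] {n : ℕ} (hn : 2 ≤ n) {I : P → L → Prop}
    (hpoly : GeneralizedPolygon n I) (hth : Thick I) (p : ℕ) [Fact p.Prime] {G : Type} [Group G]
    [Finite G] [MulAction G P] [MulAction G L] (hI : ∀ (g : G) u v, I u v → I (g • u) (g • v))
    (hT : Trans n I p G) {X : Type} [Finite X] [DecidableEq X] [MulAction G X]
    (f : (X → Bool) → Bool) (hmono : Monotone f) (hne : ∃ x y, f x ≠ f y)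
    (hinv : ∀ (g : G) (x : X → Bool), f (fun v => x (g • v)) = f x) (d : ℕ) (hd : DepthLe d f) :
    (∀ π : X → P × L, (∀ x, I (π x).1 (π x).2) → (∀ (g : G) x, π (g • x) = g • π x) →
      (∃ c : P × L, I c.1 c.2 ∧ Nat.card {e : P × L // I e.1 e.2 ∧ Opposite n I c e} ≤ d) ∧
      Nat.card {e : P × L // I e.1 e.2} ≤ 3 * d) ∧
    ∀ π : X → P, (∀ (g : G) x, π (g • x) = g • π x) →
      (∃ w : P ⊕ L, (∃ u : P, (incGraph I).dist w (.inl u) = n) ∧
        Nat.card {u : P // (incGraph I).dist w (.inl u) = n} ≤ d) ∧
      ∀ δ : ℕ, (∀ u : P, Nat.card {v : L // I u v} = δ) → Nat.card P ≤ 3 * d := by
  constructor
  · intro π hπ hπg
    obtain ⟨c, hc, h1⟩ := Pool.Agent.U737.GP.flags_main p hn hpoly hth hI hT π hπ hπg f hmono hne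
      hinv d hd
    refine ⟨⟨c, hc, h1⟩, ?_⟩
    exact (Pool.Agent.U737.GP.flags_card hn hpoly hth hc).trans (Nat.mul_le_mul_left _ h1)
  · intro π hπg
    obtain ⟨w, ⟨u, hu⟩, h1⟩ := Pool.Agent.U737.GP.points_main p hn hpoly hth hI hT π hπg f hmono
      hne hinv d hd
    refine ⟨⟨w, ⟨u, hu⟩, h1⟩, fun δ hδ => ?_⟩
    exact (Pool.Agent.U737.GP.points_card hn hpoly hth hδ hu).trans (Nat.mul_le_mul_left _ h1)

end Pool.Agent.Results.MP_d4e2f9_lc.GeneralizedPolygons
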