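import Pool.Agent.U449.BV.O
import Pool.Agent.Results.MP_d4e2f9_lc.FewExceptionalDegrees

/-!
# Weak evasiveness for small transitive groups: degrees near the values of polynomials on arbitrary dense sets

Let `p` be a prime and `f(x, y)` ANY polynomial modulo `p` of degree at most `d` with a monomial which contains both variables (for
example `f = x y`), let `A`, `B` be ARBITRARY sets of residues modulo `p`, `g`, `h` ARBITRARY functions, and `1 ≤ W ≤ p`.
For all but `Θ |A| |B|` of the pairs `(a, b)` in `A × B`, where `Θ ^ 2 = C d e(p) (p / |A| + W p / |B|)`, `e(X) = exp (- c √(log X))`,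
ALL integers `n ≥ 1` at a distance of at most `W` from the least residue of `f(a, b) + g(a) + h(b)` satisfy `AlmostEvasive ε n`.
So this holds for almost all pairs if `A`, `B` are dense and `W` is small in the same sense as the set of the exceptions is sparse.
More generally, this holds for all functions `F(a, b)` with few coincidences (`Rare`).

Since the sets and the functions `g` and `h` are arbitrary, the values have no arithmetic structure, and a value may be
taken by very many pairs. So the number of the exceptions (starting library) does not give the result directly. Proof: the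
inequality of Cauchy and Schwarz; for most pairs `a, a'` the difference `F(a, b) - F(a', b)` is small for few `b`
(`Pool.Agent.U449.BV`).
-/

set_option autoImplicit false

namespace Pool.Agent.Results.MP_d4e2f9_lc.MixedOnDenseSets

open Pool.Agent.U449.BV (Rare OnDense on_dense_sqrt residues)
open Pool.Agent.Results.MP_d4e2f9_lc.FewExceptionalDegrees (AlmostEvasive)

/-- ALL integers `n ≥ 1` with `|n - x| ≤ W` satisfy `AlmostEvasive ε`. -/
def Near (ε W x : ℝ) : Prop :=
  ∀ n : ℕ, 1 ≤ n → |(n : ℝ) - x| ≤ W → AlmostEvasive ε n

/-- **Theorem.** For `ε > 0` there is `c > 0` such that the property `Near ε` holds for almost all values of functions of two variables with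
few coincidences on arbitrary dense sets, with the density `exp (- c √(log X))` of exceptions (`OnDense`).
The least residues modulo `p` of `f(a, b) + g(a) + h(b)` are such a function, bounded by `X = p`, for all primes `p`, all
polynomials `f` modulo `p` with a monomial which contains both variables, arbitrary functions `g` and `h`, and arbitrary sets of
residues. -/
theorem result :
    (∀ ε : ℝ, 0 < ε → ∃ c : ℝ, 0 < c ∧ OnDense (fun X => Real.exp (-(c * √(Real.log X)))) (Near ε)) ∧
    ∀ (p : ℕ) [Fact p.Prime] (d : ℕ) (f : MvPolynomial (Fin 2) (ZMod p)), f.totalDegree ≤ d →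
      (∃ m ∈ f.support, m 0 ≠ 0 ∧ m 1 ≠ 0) → ∀ (g h : ZMod p → ZMod p) (A B : Finset (ZMod p)),
        Rare d A B (fun a b => (((MvPolynomial.eval ![a, b] f + g a + h b).val : ℕ) : ℝ)) := by
  refine ⟨fun ε hε => ?_, residues⟩
  obtain ⟨c, K, hc, h⟩ := FewExceptionalDegrees.result.1 ε hε
  exact ⟨c, hc, on_dense_sqrt hc.le h⟩

end Pool.Agent.Results.MP_d4e2f9_lc.MixedOnDenseSets
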