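import Pool.Agent.U737.FL.Final

/-!
# Weak evasiveness for monotone functions on point-hyperplane flags (MP_d4e2f9_lc)

Let `V` be a vector space of dimension `m ≥ 2` over the field with `q` elements. The variables are the
flags (incident pairs) `(p, h)` of a point `p` (a subspace of dimension one) and a hyperplane `h` (a
subspace of codimension one), and the group is `GL(V)`. Every non-constant monotone invariant Boolean
function of these variables has decision tree complexity at least `q ^ (2 m - 3)`, and this is at least
`(1 - 1/q)^2 n ≥ n / 4`, where `n` is the number of the variables. The same is true if the variables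
are indexed by any finite `GL(V)`-set with an equivariant map to the flags.

For `m = 3` these are the flags of the projective plane (`GeneralizedPolygons`). For `m ≥ 4` the
starting results of the problem only give what follows from the points: the lower bound `q ^ (m - 1)`
(`SubspaceProperties` with `k = 1` or `k = m - 1`), about the square root of `n`, less than the
general bound `n ^ (2/3)`.

Proof. Suppose that `f` is not constant and that `D(f) < q ^ (2 m - 3)`. Call a set `A` of flags null
if `f` is zero on (the characteristic function of) `A`. The empty set is null. Let `(p₀, h₀)` be a flag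
and let `U(p₀, h₀)` be the group of the `g` which are the identity on `p₀`, on `h₀ / p₀` and on
`V / h₀`; this is a `p`-group and transitive on the `q ^ (2 m - 3)` flags `(p, h)` with `p ⊄ h₀`,
`p₀ ⊄ h` (the flags opposite to `(p₀, h₀)`). By the theorem of Rivest and Vuillemin
(`Pool.Agent.R570.PS.rv'`), if `A` is null and invariant under `U(p₀, h₀)`, then the union of `A` and
the set of the flags opposite to `(p₀, h₀)` is null.
(1) Let `S` be a proper subspace and let `A` be defined by a condition on `p ⊆ S` and `S ⊆ h`. Such
an `A` is invariant under all `U(p₀, h₀)` with `p₀ ⊆ S ⊆ h₀`. If `A` is null, then so is the union of `A`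
and of all `(p, h)` with `p ⊄ S`, `S ⊄ h`: one sweeps over the hyperplanes `h₀ ⊇ S` (for a fixed point
`p₀ ⊆ S` one gets the flags with `p ⊄ S`, `p₀ ⊄ h`), and then over the points `p₀ ⊆ S`.
(2) By induction on `k` the set `{p ⊆ S or S ⊄ h}` is null for all `S` of dimension `k`, and
`{T ⊆ h or p ⊄ T}` is null for all `T` of codimension `k`. Indeed let `dim S = k + 1`, and let `S'` be a
hyperplane of `S`. The set `{p ⊆ S, S ⊄ h}` is contained in `{p ⊆ S' or S' ⊄ h}`, hence
it is null, and by (1) also `{S ⊄ h}` is null. Dually `{p ⊄ T}` is null if `T` has codimension `k + 1`.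
If `T` is a complement of `S`, then `{p ⊆ S}` is contained in `{p ⊄ T}`, so it is null, and by (1) also
`{p ⊆ S or S ⊄ h}` is null; and dually.
(3) For `k = m - 1` the set `{p ⊆ S or S ⊄ h}` contains all flags. So `f` is constant.
-/

set_option autoImplicit false

namespace Pool.Agent.Results.MP_d4e2f9_lc.PointHyperplaneFlags

/-- `f` is computed by a decision tree of depth at most `d`, in the words of the frozen statement
of the problem: every predicate closed under the formation of decision trees holds for it. -/
def DepthLe {X : Type} [DecidableEq X] (d : ℕ) (f : (X → Bool) → Bool) : Prop :=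
  ∀ P : ℕ → ((X → Bool) → Bool) → Prop,
    (∀ (m : ℕ) (g : (X → Bool) → Bool), (∀ x y, g x = g y) → P m g) →
    (∀ (m : ℕ) (g : (X → Bool) → Bool) (i : X),
       P m (fun x => g (Function.update x i false)) →
       P m (fun x => g (Function.update x i true)) → P (m + 1) g) →
    P d f

/-- The flags `(p, h)`: `p` is a subspace of dimension one, `h` is a subspace of codimension one, and
`p` is contained in `h`. -/
abbrev Flag (F V : Type) [Field F] [AddCommGroup V] [Module F V] : Type :=
  {c : Submodule F V × Submodule F V // Module.finrank F c.1 = 1 ∧
    Module.finrank F c.2 + 1 = Module.finrank F V ∧ c.1 ≤ c.2}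

/-- **Weak evasiveness for functions on point-hyperplane flags.** Let `V` be a vector space of finite
dimension `m ≥ 2` over a finite field with `q` elements, let `X` be a finite set with an action of
`GL(V)` and a `GL(V)`-equivariant map `π` to the flags (for instance `X` is the set of the flags
itself). A non-constant monotone `GL(V)`-invariant function `f` of Boolean variables indexed by `X`
needs decision trees of depth at least `q ^ (2 m - 3)`, and this is at least `(1 - 1/q) ^ 2` times
the number of the flags. -/
theorem result {F V : Type} [Field F] [AddCommGroup V] [Module F V] [Finite F]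
    [FiniteDimensional F V] (hm : 2 ≤ Module.finrank F V) {X : Type} [Finite X] [DecidableEq X]
    [MulAction (V ≃ₗ[F] V) X] (π : X → Flag F V)
    (hπ : ∀ (g : V ≃ₗ[F] V) (x : X),
      (π (g • x)).1 = ((π x).1.1.map (g : V →ₗ[F] V), (π x).1.2.map (g : V →ₗ[F] V)))
    (f : (X → Bool) → Bool) (hmono : Monotone f) (hne : ∃ x y, f x ≠ f y)
    (hinv : ∀ (g : V ≃ₗ[F] V) (x : X → Bool), f (fun v => x (g • v)) = f x)
    (d : ℕ) (hd : DepthLe d f) :
    Nat.card F ^ (2 * Module.finrank F V - 3) ≤ d ∧
      (1 - 1 / (Nat.card F : ℝ)) ^ 2 * Nat.card (Flag F V) ≤ d := by
  have h := Pool.Agent.U737.FL.final hm (fun x => (π x).1) (fun x => (π x).2) hπ f hmono hne hinv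
    d hd
  exact ⟨h, Pool.Agent.U737.FL.ratio hm h⟩

end Pool.Agent.Results.MP_d4e2f9_lc.PointHyperplaneFlags
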